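import Pool.Agent.H90.STE.Stmts
import Pool.Agent.H20.KA.TRC
import Pool.Agent.H58.STK.ZD
import Pool.Agent.H58.STK.ZS

/-!
# Row ZF of board `ste`: the family seen in a window of scales
-/

set_option autoImplicit false

namespace Pool.STE

open Finset Real
open Pool.Agent.H49.Ent Pool.Agent.H32.Dense Pool.STK Pool.KA Pool.KA.TRC

namespace ZF88

/-- The family seen in the window number `r` of scales. -/
noncomputable def zfam {m N k : ℕ} (F : Fam m (N * k)) (r : ℕ) (hr : r < N) : Fam m k where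
  Ω := F.Ω
  ζ := ((Fin m → ℤ) × (Fin m → ℤ)) × F.ζ
  fin := F.fin
  p := F.p
  u := zo (r * k) F.u
  d := zo (r * k) F.d
  T := fun ω => F.T ω / 2 ^ (N * k - k)
  Z := fun ω => (F.L (r * k) ω, F.Z ω)
  isLaw := F.isLaw
  dir := fun ω i => by
    change |Int.fract _| ≤ 1
    rw [abs_of_nonneg (Int.fract_nonneg _)]
    exact (Int.fract_lt_one _).le
  tim := fun ω => by
    rw [Nat.div_lt_iff_lt_mul (by positivity), ← pow_add]
    have h := F.tim ω
    have hk : k ≤ N * k := Nat.le_mul_of_pos_left k (by omega)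
    have e : k + (N * k - k) = N * k := Nat.add_sub_cancel' hk
    rwa [e]

theorem floor_close' {A B A' B' c : ℝ} (h : ⌊A⌋ = ⌊B⌋) (h1 : |A' - (A - c)| ≤ 1)
    (h2 : |B' - (B - c)| ≤ 1) : |((⌊A'⌋ - ⌊B'⌋ : ℤ) : ℝ)| ≤ 49 := by
  have a1 := Int.floor_le A
  have a2 := Int.lt_floor_add_one A
  have b1 := Int.floor_le B
  have b2 := Int.lt_floor_add_one B
  have a1' := Int.floor_le A'
  have a2' := Int.lt_floor_add_one A'
  have b1' := Int.floor_le B'
  have b2' := Int.lt_floor_add_one B'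
  rw [abs_le] at h1 h2
  rw [h] at a1 a2
  rw [abs_le]
  push_cast
  constructor <;> linarith [h1.1, h1.2, h2.1, h2.2]

end ZF88

open ZF88

theorem zf : ZFStmt := by
  intro m N k F r hr e ε he hS
  have hk : k ≤ N * k := Nat.le_mul_of_pos_left k (by omega)
  refine ⟨zfam F r hr, ?_⟩
  have hp := F.isLaw
  have hp0 := hp.nonneg
  obtain ⟨J, hJ⟩ : ∃ J, J = N * k := ⟨_, rfl⟩
  have hx' : (((N * k - k : ℕ) : ℝ)) = ((N * k : ℕ) : ℝ) - k := by
    rw [Nat.cast_sub hk]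
  have hJx : N * k - k + k = N * k := Nat.sub_add_cancel hk
  -- the coarse time
  set T' : F.Ω → ℕ := fun ω => F.T ω / 2 ^ (N * k - k) with hT'
  have hdet : Det F.p F.T T' := fun ω ω' _ _ h => by
    change F.T ω = F.T ω' at h
    simp only [hT', h]
  have hT'lt : ∀ ω, T' ω < 2 ^ k := (zfam F r hr).tim
  unfold Fam.Tm at he
  -- splitting of the time
  have c1 : CH F.p F.T (fun ω => (F.l ω, F.Z ω)) = CH F.p T' (fun ω => (F.l ω, F.Z ω)) +
      CH F.p F.T (fun ω => (T' ω, (F.l ω, F.Z ω))) := by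
    rw [← CH_chain hp0]
    refine CH_congr hp0 ?_ ?_ (fun _ _ _ _ h => h) (fun _ _ _ _ h => h)
    · intro ω ω' a b h
      have h1 : F.T ω = F.T ω' := (Prod.ext_iff.mp h).1
      exact Prod.ext h1 (hdet ω ω' a b h1)
    · intro ω ω' _ _ h
      exact (Prod.ext_iff.mp (Prod.ext_iff.mp h).1).1
  have c2 : CH F.p F.T (fun ω => (T' ω, (F.l ω, F.Z ω))) ≤
      (((N * k : ℕ) : ℝ) - k) * Real.log 2 := by
    rw [← hx']
    exact CH_div hp F.T (fun ω => (F.l ω, F.Z ω)) (N * k - k)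
  have c3 : CH F.p T' (fun ω => (F.l ω, F.Z ω)) ≤ k * Real.log 2 := CH_lt hp T' _ k hT'lt
  have c4 : CH F.p F.T (fun ω => (T' ω, (F.L (r * k) ω, F.Z ω))) ≤
      (((N * k : ℕ) : ℝ) - k) * Real.log 2 := by
    rw [← hx']
    exact CH_div hp F.T (fun ω => (F.L (r * k) ω, F.Z ω)) (N * k - k)
  have hle : r * k + k ≤ N * k := by
    have : (r + 1) * k ≤ N * k := Nat.mul_le_mul_right k hr
    linarith [this, add_mul r 1 k]
  have hrk : (r + 1) * k = r * k + k := by ring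
  refine ⟨?_, ?_, ?_, ?_⟩
  · -- the time
    unfold Fam.Tm
    have h1 : CH F.p T' (fun ω => (F.l ω, F.Z ω)) ≤
        CH F.p T' (fun ω => ((zfam F r hr).l ω, (zfam F r hr).Z ω)) := by
      refine CH_mono_cond hp0 ?_
      intro ω ω' _ _ h
      have h1 : F.l ω = F.l ω' := (Prod.ext_iff.mp h).1
      have h2 : F.Z ω = F.Z ω' := (Prod.ext_iff.mp h).2
      have h3 : F.u ω = F.u ω' := (Prod.ext_iff.mp h1).1
      have h4 : F.d ω = F.d ω' := (Prod.ext_iff.mp h1).2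
      change ((zo (r * k) F.u ω, zo (r * k) F.d ω), (F.L (r * k) ω, F.Z ω)) =
        ((zo (r * k) F.u ω', zo (r * k) F.d ω'), (F.L (r * k) ω', F.Z ω'))
      unfold zo Fam.L
      rw [h2, h3, h4]
    change (k : ℝ) * Real.log 2 - e ≤ CH F.p T' (fun ω => ((zfam F r hr).l ω, (zfam F r hr).Z ω))
    linarith
  · -- stickiness
    intro j hj
    have h1 := zs_thm m F.Ω F.ζ F.p F.u F.d F.Z hp (r * k) j
    have h2 := hS (r * k + j) (by omega)
    have h3 : ε * N * (k : ℝ) = ε * ((N * k : ℕ) : ℝ) := by push_cast; ring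
    rw [h3]
    exact h1.trans h2
  · -- directions
    have h1 := zd_thm m F.Ω F.ζ F.p F.u F.d F.Z hp (r * k) k
    rw [hrk]
    exact h1
  · -- positions
    obtain ⟨Y, hY⟩ : ∃ Y : F.Ω → Fin m → ℤ, Y = (zfam F r hr).X k := ⟨_, rfl⟩
    have hYe : ∀ ω, Y ω = fl k (fun i => zo (r * k) F.u ω i + (T' ω : ℝ) / 2 ^ k *
        zo (r * k) F.d ω i) := by
      intro ω
      rw [hY]
      rfl
    have hYdet : Det F.p (fun ω => (F.l ω, (T' ω, F.Z ω)))
        (fun ω => (Y ω, (T' ω, (F.L (r * k) ω, F.Z ω)))) := by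
      intro ω ω' _ _ h
      have h1 : F.l ω = F.l ω' := (Prod.ext_iff.mp h).1
      have h2 : T' ω = T' ω' := (Prod.ext_iff.mp (Prod.ext_iff.mp h).2).1
      have h5 : F.Z ω = F.Z ω' := (Prod.ext_iff.mp (Prod.ext_iff.mp h).2).2
      have h3 : F.u ω = F.u ω' := (Prod.ext_iff.mp h1).1
      have h4 : F.d ω = F.d ω' := (Prod.ext_iff.mp h1).2
      have h6 : Y ω = Y ω' := by
        rw [hYe, hYe]
        unfold zo
        rw [h2, h3, h4]
      have h7 : F.L (r * k) ω = F.L (r * k) ω' := by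
        unfold Fam.L
        rw [h3, h4]
      exact Prod.ext h6 (Prod.ext h2 (Prod.ext h7 h5))
    have d2 := CH_bayes hp0 Y F.T (fun ω => (T' ω, (F.L (r * k) ω, F.Z ω)))
    have d3 : CH F.p F.T (fun ω => (F.l ω, (T' ω, F.Z ω))) ≤
        CH F.p F.T (fun ω => (Y ω, (T' ω, (F.L (r * k) ω, F.Z ω)))) :=
      CH_mono_cond hp0 hYdet
    have d4 : CH F.p F.T (fun ω => (F.l ω, (T' ω, F.Z ω))) =
        CH F.p F.T (fun ω => (T' ω, (F.l ω, F.Z ω))) := by
      refine CH_congr hp0 (fun _ _ _ _ h => (Prod.ext_iff.mp h).1)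
        (fun _ _ _ _ h => (Prod.ext_iff.mp h).1) ?_ ?_ <;>
      · intro ω ω' _ _ h
        simp only [Prod.mk.injEq] at h ⊢
        tauto
    have d1 : CH F.p Y (fun ω => (F.T ω, (T' ω, (F.L (r * k) ω, F.Z ω)))) =
        CH F.p Y (bT F k r) := by
      refine CH_congr hp0 (fun _ _ _ _ h => (Prod.ext_iff.mp h).1)
        (fun _ _ _ _ h => (Prod.ext_iff.mp h).1) ?_ ?_
      · intro ω ω' _ _ h
        have h1 := Prod.ext_iff.mp h
        have h2 := Prod.ext_iff.mp h1.2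
        have h3 := Prod.ext_iff.mp h2.2
        exact Prod.ext h3.1 (Prod.ext h1.1 h3.2)
      · intro ω ω' a b h
        have h1 : F.L (r * k) ω = F.L (r * k) ω' := (Prod.ext_iff.mp h).1
        have h2 : F.W ω = F.W ω' := (Prod.ext_iff.mp h).2
        have h3 : F.T ω = F.T ω' := (Prod.ext_iff.mp h2).1
        have h4 : F.Z ω = F.Z ω' := (Prod.ext_iff.mp h2).2
        exact Prod.ext h3 (Prod.ext (hdet ω ω' a b h3) (Prod.ext h1 h4))
    -- the two positions are close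
    have hclose : ∀ ω l, |(2 : ℝ) ^ k * (zo (r * k) F.u ω l + (T' ω : ℝ) / 2 ^ k *
        zo (r * k) F.d ω l) - (2 ^ ((r + 1) * k) * (F.u ω l + (F.T ω : ℝ) / 2 ^ (N * k) *
        F.d ω l) - 2 ^ k * (((F.L (r * k) ω).1 l : ℝ) +
        (F.T ω : ℝ) / 2 ^ (N * k) * ((F.L (r * k) ω).2 l : ℝ)))| ≤ 1 := by
      intro ω l
      have g1 : zo (r * k) F.u ω l = 2 ^ (r * k) * F.u ω l - ((F.L (r * k) ω).1 l : ℝ) := by
        change Int.fract (2 ^ (r * k) * F.u ω l) = _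
        rw [Int.fract]
        rfl
      have g2 : zo (r * k) F.d ω l = 2 ^ (r * k) * F.d ω l - ((F.L (r * k) ω).2 l : ℝ) := by
        change Int.fract (2 ^ (r * k) * F.d ω l) = _
        rw [Int.fract]
        rfl
      have g3 : |zo (r * k) F.d ω l| ≤ 1 := (zfam F r hr).dir ω l
      have e1 : (2 : ℝ) ^ k * (zo (r * k) F.u ω l + (T' ω : ℝ) / 2 ^ k *
          zo (r * k) F.d ω l) - (2 ^ ((r + 1) * k) * (F.u ω l + (F.T ω : ℝ) / 2 ^ (N * k) *
          F.d ω l) - 2 ^ k * (((F.L (r * k) ω).1 l : ℝ) +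
          (F.T ω : ℝ) / 2 ^ (N * k) * ((F.L (r * k) ω).2 l : ℝ))) =
          2 ^ k * ((T' ω : ℝ) / 2 ^ k - (F.T ω : ℝ) / 2 ^ (N * k)) * zo (r * k) F.d ω l := by
        rw [g1, g2, hrk, pow_add]
        ring
      have e2 : (2 : ℝ) ^ (N * k) = 2 ^ (N * k - k) * 2 ^ k := by rw [← pow_add, hJx]
      have hdm := Nat.div_add_mod (F.T ω) (2 ^ (N * k - k))
      have hml := Nat.mod_lt (F.T ω) (y := 2 ^ (N * k - k)) (by positivity)
      have e3 : (F.T ω : ℝ) = 2 ^ (N * k - k) * (T' ω : ℝ) +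
          ((F.T ω % 2 ^ (N * k - k) : ℕ) : ℝ) := by
        rw [hT']
        exact_mod_cast hdm.symm
      have e4 : ((F.T ω % 2 ^ (N * k - k) : ℕ) : ℝ) < 2 ^ (N * k - k) := by exact_mod_cast hml
      have e5 : (0 : ℝ) ≤ ((F.T ω % 2 ^ (N * k - k) : ℕ) : ℝ) := by positivity
      have p1 : (0 : ℝ) < 2 ^ (N * k - k) := by positivity
      have p2 : (0 : ℝ) < 2 ^ k := by positivity
      have e6 : (2 : ℝ) ^ k * ((T' ω : ℝ) / 2 ^ k - (F.T ω : ℝ) / 2 ^ (N * k)) =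
          -(((F.T ω % 2 ^ (N * k - k) : ℕ) : ℝ) / 2 ^ (N * k - k)) := by
        rw [e2]
        field_simp
        linarith
      rw [e1, e6, abs_mul, abs_neg, abs_of_nonneg
        (a := ((F.T ω % 2 ^ (N * k - k) : ℕ) : ℝ) / 2 ^ (N * k - k)) (by positivity)]
      have e7 : ((F.T ω % 2 ^ (N * k - k) : ℕ) : ℝ) / 2 ^ (N * k - k) ≤ 1 := by
        rw [div_le_one p1]
        exact e4.le
      calc _ ≤ 1 * 1 := mul_le_mul e7 g3 (abs_nonneg _) (by norm_num)
        _ = 1 := by norm_num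
    have f1 : CH F.p Y (bT F k r) ≤ CH F.p (F.X ((r + 1) * k)) (bT F k r) + cc m := by
      refine CH_le_round hp Y (F.X ((r + 1) * k)) (bT F k r) fun ω ω' _ _ hb h l => ?_
      have h1 : F.L (r * k) ω = F.L (r * k) ω' := (Prod.ext_iff.mp hb).1
      have h2 : F.W ω = F.W ω' := (Prod.ext_iff.mp hb).2
      have h3 : F.T ω = F.T ω' := (Prod.ext_iff.mp h2).1
      have h4 := hclose ω l
      have h5 := hclose ω' l
      rw [← h1, ← h3] at h5
      rw [hYe, hYe]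
      have h6 : ⌊2 ^ ((r + 1) * k) * (F.u ω l + (F.T ω : ℝ) / 2 ^ (N * k) * F.d ω l)⌋ =
          ⌊2 ^ ((r + 1) * k) * (F.u ω' l + (F.T ω : ℝ) / 2 ^ (N * k) * F.d ω' l)⌋ := by
        have h7 := congrFun h l
        have h8 : F.X ((r + 1) * k) ω' l =
            ⌊2 ^ ((r + 1) * k) * (F.u ω' l + (F.T ω' : ℝ) / 2 ^ (N * k) * F.d ω' l)⌋ := rfl
        rw [h8, ← h3] at h7
        exact h7
      have hT3 : T' ω = T' ω' := by
        rw [hT']
        simp only [h3]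
      exact floor_close' h6 h4 h5
    change CH F.p ((zfam F r hr).X k) (fun ω => (T' ω, (F.L (r * k) ω, F.Z ω))) ≤ _
    rw [← hY]
    rw [d1] at d2
    linarith

end Pool.STE
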